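import Pool.Agent.helper53.SP4.Spec

/-!
# Row `sp4:S4M` (MP_561ff4_al)

Commuting elements.
-/

set_option autoImplicit false

namespace Pool.Agent.SP4

open Pool.Agent.GS

theorem S4M_addl {F : Type} [Field F] (u v w : Fin 4 → F) : B (u + v) w = B u w + B v w := by
  unfold B
  simp only [Pi.add_apply]
  ring

theorem S4M_addr {F : Type} [Field F] (u v w : Fin 4 → F) : B u (v + w) = B u v + B u w := by
  unfold B
  simp only [Pi.add_apply]
  ring

theorem S4M_smull {F : Type} [Field F] (c : F) (v w : Fin 4 → F) : B (c • v) w = c * B v w := by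
  unfold B
  simp only [Pi.smul_apply, smul_eq_mul]
  ring

theorem S4M_smulr {F : Type} [Field F] (c : F) (v w : Fin 4 → F) : B v (c • w) = c * B v w := by
  unfold B
  simp only [Pi.smul_apply, smul_eq_mul]
  ring

theorem S4M_basis {F : Type} [Field F] [CharP F 2] (hself : ∀ v : Fin 4 → F, B v v = 0)
    (a b m : Fin 4 → F) (hab : Pl a b) (hm : m ∈ Sn a b) (hm0 : m ≠ 0) :
    ∃ b', B m b' = 0 ∧ ∀ w, B b w • a + B a w • b = B b' w • m + B m w • b' := by
  have h2 : (2 : F) = 0 := CharTwo.two_eq_zero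
  obtain ⟨α, β, rfl⟩ := Submodule.mem_span_pair.1 hm
  by_cases hα : α = 0
  · subst hα
    have hβ : β ≠ 0 := by
      rintro rfl
      apply hm0
      simp
    have hβ' : β * β⁻¹ = 1 := mul_inv_cancel₀ hβ
    refine ⟨β⁻¹ • a, ?_, fun w => ?_⟩
    · rw [S4M_addl, S4M_smull, S4M_smull, S4M_smulr, S4M_smulr]
      have h : B b a = 0 := by
        have := hab.2
        unfold B at this ⊢
        linear_combination this
      rw [h]
      ring
    · funext i
      simp only [Pi.add_apply, Pi.smul_apply, smul_eq_mul, S4M_addl, S4M_smull]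
      linear_combination (-(B b w * a i + B a w * b i)) * hβ'
  · have hα' : α * α⁻¹ = 1 := mul_inv_cancel₀ hα
    refine ⟨α⁻¹ • b, ?_, fun w => ?_⟩
    · rw [S4M_addl, S4M_smull, S4M_smull, S4M_smulr, S4M_smulr, hab.2, hself]
      ring
    · funext i
      simp only [Pi.add_apply, Pi.smul_apply, smul_eq_mul, S4M_addl, S4M_smull]
      linear_combination (-(B b w * a i + B a w * b i)) * hα' - (α⁻¹ * β * B b w * b i) * h2

theorem S4M_indep {F : Type} [Field F] (a b : Fin 4 → F) (hab : Pl a b) (x y : F) (h : x • a + y • b = 0) : x = 0 ∧ y = 0 :=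
  LinearIndependent.pair_iff.1 hab.1 x y h

theorem S4M_ext {F : Type} [Field F] (g h : SG F) (H : ∀ w, (g : (Fin 4 → F) ≃ₗ[F] (Fin 4 → F)) w = (h : (Fin 4 → F) ≃ₗ[F] (Fin 4 → F)) w) : g = h :=
  Subtype.ext (LinearEquiv.ext H)

theorem S4M_mul {F : Type} [Field F] (g h : SG F) (w : Fin 4 → F) :
    ((g * h : SG F) : (Fin 4 → F) ≃ₗ[F] (Fin 4 → F)) w = (g : (Fin 4 → F) ≃ₗ[F] (Fin 4 → F)) ((h : (Fin 4 → F) ≃ₗ[F] (Fin 4 → F)) w) := rfl

theorem S4M (hS4B : S4B_stmt) : S4M_stmt := by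
  intro F _ _ v w a b c d t t' s s' hv hw hab hcd ht ht' hs hs'
  have h2 : (2 : F) = 0 := CharTwo.two_eq_zero
  obtain ⟨b1, b2, b3, b4, b5, b6, b7, b8, b9, b10, b11, b12⟩ := hS4B F
  have memz : ∀ a b u : Fin 4 → F, Pl a b → u ∈ Sn a b → B a u = 0 ∧ B b u = 0 := by
    intro a b u hab hu
    obtain ⟨α, β, rfl⟩ := Submodule.mem_span_pair.1 hu
    constructor
    · rw [S4M_addr, S4M_smulr, S4M_smulr, hab.2, b1]
      ring
    · rw [S4M_addr, S4M_smulr, S4M_smulr, b2 b a, hab.2, b1]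
      ring
  refine ⟨⟨fun h => ?_, fun h => ?_⟩, ⟨fun h => ?_, fun h => ?_⟩, ⟨fun h => ?_, ?_⟩⟩
  · have h1 := (b8 t t' w w).1 ht'
    have h3 : t * t' * t⁻¹ = t' := by rw [h, mul_inv_cancel_right]
    rw [h3] at h1
    have h4 := b10 _ _ _ ht' h1
    rw [ht w] at h4
    have h5 : B v w • v = 0 := by
      have := h4.symm
      rwa [add_eq_left] at this
    rcases smul_eq_zero.1 h5 with h6 | h6
    · exact h6
    · exact absurd h6 hv
  · refine S4M_ext _ _ fun u => ?_
    rw [S4M_mul, S4M_mul, ht', ht, ht, ht']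
    have h' : B w v = 0 := by rw [b2, h]
    rw [S4M_addr, S4M_smulr, h, S4M_addr, S4M_smulr, h', mul_zero, mul_zero, add_zero, add_zero]
    abel
  · have h1 := (b8 s t v v).1 ht
    have h3 : s * t * s⁻¹ = t := by rw [← h, mul_inv_cancel_right]
    rw [h3] at h1
    have h4 := b10 _ _ _ ht h1
    rw [hs v] at h4
    have h5 : B b v • a + B a v • b = 0 := by
      have := h4.symm
      rwa [add_eq_left] at this
    obtain ⟨h6, h7⟩ := S4M_indep a b hab _ _ h5
    exact b12 a b v hab h7 h6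
  · obtain ⟨h3, h4⟩ := memz a b v hab h
    have h3' : B v a = 0 := by rw [b2, h3]
    have h4' : B v b = 0 := by rw [b2, h4]
    refine S4M_ext _ _ fun u => ?_
    rw [S4M_mul, S4M_mul, hs, ht, ht, hs]
    funext i
    simp only [Pi.add_apply, Pi.smul_apply, smul_eq_mul, S4M_addr, S4M_smulr, h3, h4, h3', h4']
    ring
  · by_contra hne
    push Not at hne
    have hN : ∀ u : Fin 4 → F, B b (B d u • c + B c u • d) • a + B a (B d u • c + B c u • d) • b =
        B d (B b u • a + B a u • b) • c + B c (B b u • a + B a u • b) • d := by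
      intro u
      have h1 : ((s * s' : SG F) : (Fin 4 → F) ≃ₗ[F] (Fin 4 → F)) u = ((s' * s : SG F) : (Fin 4 → F) ≃ₗ[F] (Fin 4 → F)) u := by rw [h]
      rw [S4M_mul, S4M_mul, hs', hs, hs, hs'] at h1
      funext i
      have h3 := congrFun h1 i
      simp only [Pi.add_apply, Pi.smul_apply, smul_eq_mul, S4M_addr, S4M_smulr] at h3 ⊢
      linear_combination h3
    have hz : ∀ u : Fin 4 → F, B b (B d u • c + B c u • d) • a + B a (B d u • c + B c u • d) • b = 0 := by
      intro u
      by_contra h0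
      refine hne _ h0 (Submodule.mem_span_pair.2 ⟨_, _, rfl⟩) ?_
      rw [hN u]
      exact Submodule.mem_span_pair.2 ⟨_, _, rfl⟩
    have hb : B b c • d + B b d • c = 0 := by
      refine b3 _ fun u => ?_
      have h3 := (S4M_indep a b hab _ _ (hz u)).1
      rw [S4M_addr, S4M_smulr, S4M_smulr] at h3
      rw [S4M_addl, S4M_smull, S4M_smull]
      linear_combination h3
    have ha : B a c • d + B a d • c = 0 := by
      refine b3 _ fun u => ?_
      have h3 := (S4M_indep a b hab _ _ (hz u)).2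
      rw [S4M_addr, S4M_smulr, S4M_smulr] at h3
      rw [S4M_addl, S4M_smull, S4M_smull]
      linear_combination h3
    rw [add_comm] at hb ha
    have hb' := (S4M_indep c d hcd _ _ hb).2
    have ha' := (S4M_indep c d hcd _ _ ha).2
    have hc0 : c ≠ 0 := by
      rintro rfl
      have := S4M_indep 0 d hcd 1 0 (by simp)
      exact one_ne_zero this.1
    exact hne c hc0 (b12 a b c hab ha' hb') (Submodule.mem_span_pair.2 ⟨1, 0, by simp⟩)
  · rintro ⟨m, hm0, hm1, hm2⟩
    obtain ⟨b', hb1, hb2⟩ := S4M_basis b1 a b m hab hm1 hm0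
    obtain ⟨d', hd1, hd2⟩ := S4M_basis b1 c d m hcd hm2 hm0
    have hsw : ∀ u, (s : (Fin 4 → F) ≃ₗ[F] (Fin 4 → F)) u = u + (B b' u • m + B m u • b') := fun u => by rw [hs u, hb2 u]
    have hsw' : ∀ u, (s' : (Fin 4 → F) ≃ₗ[F] (Fin 4 → F)) u = u + (B d' u • m + B m u • d') := fun u => by rw [hs' u, hd2 u]
    have hb1' : B b' m = 0 := by rw [b2, hb1]
    have hd1' : B d' m = 0 := by rw [b2, hd1]
    refine S4M_ext _ _ fun u => ?_
    rw [S4M_mul, S4M_mul, hsw', hsw, hsw, hsw']
    funext i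
    simp only [Pi.add_apply, Pi.smul_apply, smul_eq_mul, S4M_addr, S4M_smulr, hb1, hd1, hb1', hd1', b1, b2 d' b']
    ring

end Pool.Agent.SP4
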